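import Pool.Agent.H82.NTC.Stmts

set_option autoImplicit false

namespace Pool.NTC

open Pool.NET

private theorem pin2_up {N : Set Nd} {u : Nd → Prop} (hU : UN N u) {x y : ℤ} (h1 : u (x, y))
    (h2 : (x, y) ∈ N) : (x, y + 1) ∈ N := (hU (x, y) h1).1 h2

private theorem pin2_dn {N : Set Nd} {u : Nd → Prop} (hU : UN N u) {x y : ℤ} (h1 : u (x, y - 1))
    (h2 : (x, y) ∈ N) : (x, y - 1) ∈ N := by
  have := (hU (x, y - 1) h1).2
  simp only [sub_add_cancel] at this
  exact this h2

private theorem pin2_l {N : Set Nd} {h : Nd → Prop} (hH : HN N h) {x y : ℤ} (h1 : h (x, y)) :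
    (x, y) ∈ N := (hH (x, y) h1).1

private theorem pin2_r {N : Set Nd} {h : Nd → Prop} (hH : HN N h) {x y : ℤ} (h1 : h (x, y)) :
    (x + 1, y) ∈ N := (hH (x, y) h1).2

theorem pin2_thm : PIN2_S := by
  intro N h u hH hU
  refine ⟨?_, ?_, ?_, ?_⟩
  · rintro ⟨⟨x, y⟩, k⟩ hok
    cases k <;> simp only [nx2] <;> simp only [OK2] at hok
    · split_ifs with a1
      · exact ⟨hok, a1⟩
      · exact ⟨hok, a1⟩
    · split_ifs with a1
      · exact ⟨hok, a1⟩
      · exact ⟨hok, a1⟩
    · exact hok.1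
    · exact hok.1
    · exact hok.1
    · exact hok.1
    · split_ifs with a1
      · exact pin2_up hU a1 hok
      · exact ⟨hok, a1⟩
    · exact pin2_r hH hok.2
    · split_ifs with a1
      · exact pin2_dn hU a1 hok
      · exact ⟨hok, a1⟩
    · exact pin2_l hH hok.2
  · rintro ⟨⟨x, y⟩, k⟩ hok
    cases k <;> simp only [pv2] <;> simp only [OK2] at hok
    · split_ifs with a1
      · exact pin2_up hU a1 hok
      · exact ⟨hok, a1⟩
    · split_ifs with a1
      · exact pin2_dn hU a1 hok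
      · exact ⟨hok, a1⟩
    · exact hok.1
    · exact hok.1
    · exact hok.1
    · exact hok.1
    · split_ifs with a1
      · refine ⟨pin2_r hH a1, ?_⟩
        simpa using a1
      · exact ⟨hok, a1⟩
    · exact hok.1
    · split_ifs with a1
      · exact ⟨pin2_l hH a1, a1⟩
      · exact ⟨hok, a1⟩
    · exact hok.1
  · rintro ⟨⟨x, y⟩, k⟩ hok
    cases k <;> simp only [nx2] <;> simp only [OK2] at hok <;> (try split_ifs) <;> simp_all [pv2]
  · rintro ⟨⟨x, y⟩, k⟩ hok
    cases k <;> simp only [pv2] <;> simp only [OK2] at hok <;> (try split_ifs) <;> simp_all [nx2]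

end Pool.NTC
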